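import Pool.Agent.Helper61.FN.Goals
import Pool.Agent.Helper61.FN.Tools

/-!
# Project FN, packet ADG: with all distances positive, all triangles are degenerate
-/

set_option autoImplicit false

namespace Pool.Agent.Helper73.FN

open Finset Pool.Agent.Helper61.FN

theorem key {k : Type} [Field k] {a b c p q r : k}
    (hA : (a ≠ 0 ∧ b = 0 ∧ c = 0) ∨ (a = 0 ∧ b ≠ 0 ∧ c = 0) ∨ (a = 0 ∧ b = 0 ∧ c ≠ 0))
    {s1 s2 s3 : k} (h1 : s1 = 1 ∨ s1 = -1) (h2 : s2 = 1 ∨ s2 = -1)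
    (h3 : s3 = 1 ∨ s3 = -1) {t1 t2 t3 : k}
    (h : s1 * a + s2 * b + s3 * c + (t1 * p + t2 * q + t3 * r) = 0) :
    p ≠ 0 ∨ q ≠ 0 ∨ r ≠ 0 := by
  by_contra hc
  push Not at hc
  obtain ⟨rfl, rfl, rfl⟩ := hc
  rcases hA with ⟨ha, rfl, rfl⟩ | ⟨rfl, ha, rfl⟩ | ⟨rfl, rfl, ha⟩
  · rcases h1 with rfl | rfl
    · exact ha (by linear_combination h)
    · exact ha (by linear_combination -h)
  · rcases h2 with rfl | rfl
    · exact ha (by linear_combination h)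
    · exact ha (by linear_combination -h)
  · rcases h3 with rfl | rfl
    · exact ha (by linear_combination h)
    · exact ha (by linear_combination -h)

theorem cA_ne {F : Type} [Field F] [LinearOrder F] [IsStrictOrderedRing F] {n : Fin 4 → F}
    (n0 : 0 < n 0) (n1 : 0 < n 1) (n2 : 0 < n 2) (n3 : 0 < n 3) (j : Fin 18) : cA n j ≠ 0 := by
  have e0 := n0.ne'
  have e1 := n1.ne'
  have e2 := n2.ne'
  have e3 := n3.ne'
  have e4 : n 0 + n 1 + n 2 + n 3 ≠ 0 := by positivity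
  fin_cases j <;> simp [cA, e0, e1, e2, e3, e4]

theorem grs (v : Fin 6 → ℤ) :
    gr (mA 0) v = -v 0 ∧
    gr (mA 1) v = -v 1 ∧
    gr (mA 2) v = -v 2 ∧
    gr (mA 3) v = -v 3 ∧
    gr (mA 4) v = -v 4 ∧
    gr (mA 5) v = -v 5 ∧
    gr (mA 6) v = v 0 - v 1 - v 3 ∧
    gr (mA 7) v = -v 0 + v 1 - v 3 ∧
    gr (mA 8) v = -v 0 - v 1 + v 3 ∧
    gr (mA 9) v = v 0 - v 2 - v 4 ∧
    gr (mA 10) v = -v 0 + v 2 - v 4 ∧
    gr (mA 11) v = -v 0 - v 2 + v 4 ∧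
    gr (mA 12) v = v 1 - v 2 - v 5 ∧
    gr (mA 13) v = -v 1 + v 2 - v 5 ∧
    gr (mA 14) v = -v 1 - v 2 + v 5 ∧
    gr (mA 15) v = v 3 - v 4 - v 5 ∧
    gr (mA 16) v = -v 3 + v 4 - v 5 ∧
    gr (mA 17) v = -v 3 - v 4 + v 5 := by
  refine ⟨?_, ?_, ?_, ?_, ?_, ?_, ?_, ?_, ?_, ?_, ?_, ?_, ?_, ?_, ?_, ?_, ?_, ?_⟩ <;> rw [gr6] <;>
    simp [mA] <;> ring

theorem ex0 {k : Type} [Field k] (Y : Fin 18 → k) (h : ∑ j, (mA j 0 : k) * Y j = 0)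
    (y : Y 0 = 0) : 1 * Y 6 + -1 * Y 7 + -1 * Y 8 +
      (1 * Y 9 + -1 * Y 10 + -1 * Y 11) = 0 := by
  simp only [Fin.sum_univ_succ, mA] at h
  simp at h
  linear_combination h + y

theorem ex1 {k : Type} [Field k] (Y : Fin 18 → k) (h : ∑ j, (mA j 1 : k) * Y j = 0)
    (y : Y 1 = 0) : -1 * Y 6 + 1 * Y 7 + -1 * Y 8 +
      (1 * Y 12 + -1 * Y 13 + -1 * Y 14) = 0 := by
  simp only [Fin.sum_univ_succ, mA] at h
  simp at h
  linear_combination h + y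

theorem ex2 {k : Type} [Field k] (Y : Fin 18 → k) (h : ∑ j, (mA j 2 : k) * Y j = 0)
    (y : Y 2 = 0) : -1 * Y 9 + 1 * Y 10 + -1 * Y 11 +
      (-1 * Y 12 + 1 * Y 13 + -1 * Y 14) = 0 := by
  simp only [Fin.sum_univ_succ, mA] at h
  simp at h
  linear_combination h + y

theorem ex3 {k : Type} [Field k] (Y : Fin 18 → k) (h : ∑ j, (mA j 3 : k) * Y j = 0)
    (y : Y 3 = 0) : -1 * Y 6 + -1 * Y 7 + 1 * Y 8 +
      (1 * Y 15 + -1 * Y 16 + -1 * Y 17) = 0 := by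
  simp only [Fin.sum_univ_succ, mA] at h
  simp at h
  linear_combination h + y

theorem ex4 {k : Type} [Field k] (Y : Fin 18 → k) (h : ∑ j, (mA j 4 : k) * Y j = 0)
    (y : Y 4 = 0) : -1 * Y 9 + -1 * Y 10 + 1 * Y 11 +
      (-1 * Y 15 + 1 * Y 16 + -1 * Y 17) = 0 := by
  simp only [Fin.sum_univ_succ, mA] at h
  simp at h
  linear_combination h + y

theorem ex5 {k : Type} [Field k] (Y : Fin 18 → k) (h : ∑ j, (mA j 5 : k) * Y j = 0)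
    (y : Y 5 = 0) : -1 * Y 12 + -1 * Y 13 + 1 * Y 14 +
      (-1 * Y 15 + -1 * Y 16 + 1 * Y 17) = 0 := by
  simp only [Fin.sum_univ_succ, mA] at h
  simp at h
  linear_combination h + y

/-- The state of a triangle. -/
theorem deg {k : Type} [Field k] {x y z g1 g2 g3 : ℤ} {Y1 Y2 Y3 : k} (hx : 0 < x) (hy : 0 < y)
    (hz : 0 < z) (e1 : g1 = x - y - z) (e2 : g2 = y - x - z) (e3 : g3 = z - x - y)
    (a1 : g1 ≠ 0 → Y1 = 0) (a2 : g2 ≠ 0 → Y2 = 0) (a3 : g3 ≠ 0 → Y3 = 0)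
    (b1 : g1 = 0 → Y1 ≠ 0) (b2 : g2 = 0 → Y2 ≠ 0) (b3 : g3 = 0 → Y3 ≠ 0) :
    ((x = y + z ∨ y = x + z ∨ z = x + y) →
      ((Y1 ≠ 0 ∧ Y2 = 0 ∧ Y3 = 0) ∨ (Y1 = 0 ∧ Y2 ≠ 0 ∧ Y3 = 0) ∨ (Y1 = 0 ∧ Y2 = 0 ∧ Y3 ≠ 0))) ∧
    ((Y1 ≠ 0 ∨ Y2 ≠ 0 ∨ Y3 ≠ 0) → (x = y + z ∨ y = x + z ∨ z = x + y)) := by
  constructor
  · rintro (h | h | h)
    · exact Or.inl ⟨b1 (by omega), a2 (by omega), a3 (by omega)⟩
    · exact Or.inr (Or.inl ⟨a1 (by omega), b2 (by omega), a3 (by omega)⟩)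
    · exact Or.inr (Or.inr ⟨a1 (by omega), a2 (by omega), b3 (by omega)⟩)
  · rintro (h | h | h)
    · have := not_imp_comm.1 a1 h
      exact Or.inl (by omega)
    · have := not_imp_comm.1 a2 h
      exact Or.inr (Or.inl (by omega))
    · have := not_imp_comm.1 a3 h
      exact Or.inr (Or.inr (by omega))

theorem goalADG : G_ADG := by
  intro F k _ _ _ _ _ n lam v M ξ h hv
  obtain ⟨Y, hY⟩ : ∃ Y : Fin 18 → k, Y = fun j ↦ if gr (mA j) v = 0 then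
      algebraMap F k (cA n j) * mon ξ (mA j) else 0 := ⟨_, rfl⟩
  have hY0 (j : Fin 18) (hj : gr (mA j) v ≠ 0) : Y j = 0 := by
    rw [hY]
    exact if_neg hj
  have hYn (j : Fin 18) (hj : gr (mA j) v = 0) : Y j ≠ 0 := by
    rw [hY]
    show (if gr (mA j) v = 0 then algebraMap F k (cA n j) * mon ξ (mA j) else 0) ≠ 0
    rw [if_pos hj]
    exact mul_ne_zero (am_ne (cA_ne (h.pos 0) (h.pos 1) (h.pos 2) (h.pos 3) j)) (mon_ne h.nrm.ne _)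
  have hE (e : Fin 6) : ∑ j, (mA j e : k) * Y j = 0 := by
    rw [hY]
    exact h.nrm.ld0 e
  obtain ⟨i, hi⟩ := h.nrm.ex
  obtain ⟨g0, g1, g2, g3, g4, g5, g6, g7, g8, g9, g10, g11, g12, g13, g14, g15, g16, g17⟩ := grs v
  have v0 := hv 0
  have v1 := hv 1
  have v2 := hv 2
  have v3 := hv 3
  have v4 := hv 4
  have v5 := hv 5
  have e0 := ex0 Y (hE 0) (hY0 0 (by rw [g0]; omega))
  have e1 := ex1 Y (hE 1) (hY0 1 (by rw [g1]; omega))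
  have e2 := ex2 Y (hE 2) (hY0 2 (by rw [g2]; omega))
  have e3 := ex3 Y (hE 3) (hY0 3 (by rw [g3]; omega))
  have e4 := ex4 Y (hE 4) (hY0 4 (by rw [g4]; omega))
  have e5 := ex5 Y (hE 5) (hY0 5 (by rw [g5]; omega))
  have d0 := deg v0 v1 v3 (g6.trans (by ring)) (g7.trans (by ring)) (g8.trans (by ring))
    (hY0 6) (hY0 7) (hY0 8) (hYn 6) (hYn 7) (hYn 8)
  have d1 := deg v0 v2 v4 (g9.trans (by ring)) (g10.trans (by ring)) (g11.trans (by ring))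
    (hY0 9) (hY0 10) (hY0 11) (hYn 9) (hYn 10) (hYn 11)
  have d2 := deg v1 v2 v5 (g12.trans (by ring)) (g13.trans (by ring)) (g14.trans (by ring))
    (hY0 12) (hY0 13) (hY0 14) (hYn 12) (hYn 13) (hYn 14)
  have d3 := deg v3 v4 v5 (g15.trans (by ring)) (g16.trans (by ring)) (g17.trans (by ring))
    (hY0 15) (hY0 16) (hY0 17) (hYn 15) (hYn 16) (hYn 17)
  have s1 : (1 : k) = 1 ∨ (1 : k) = -1 := Or.inl rfl
  have s2 : (-1 : k) = 1 ∨ (-1 : k) = -1 := Or.inr rfl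
  have p01 := fun hd ↦ d1.2 (key (d0.1 hd) s1 s2 s2 e0)
  have p10 := fun hd ↦ d0.2 (key (d1.1 hd) s1 s2 s2 ((add_comm _ _).trans e0))
  have p02 := fun hd ↦ d2.2 (key (d0.1 hd) s2 s1 s2 e1)
  have p20 := fun hd ↦ d0.2 (key (d2.1 hd) s1 s2 s2 ((add_comm _ _).trans e1))
  have p12 := fun hd ↦ d2.2 (key (d1.1 hd) s2 s1 s2 e2)
  have p21 := fun hd ↦ d1.2 (key (d2.1 hd) s2 s1 s2 ((add_comm _ _).trans e2))
  have p03 := fun hd ↦ d3.2 (key (d0.1 hd) s2 s2 s1 e3)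
  have p30 := fun hd ↦ d0.2 (key (d3.1 hd) s1 s2 s2 ((add_comm _ _).trans e3))
  have p13 := fun hd ↦ d3.2 (key (d1.1 hd) s2 s2 s1 e4)
  have p31 := fun hd ↦ d1.2 (key (d3.1 hd) s2 s1 s2 ((add_comm _ _).trans e4))
  have p23 := fun hd ↦ d3.2 (key (d2.1 hd) s2 s2 s1 e5)
  have p32 := fun hd ↦ d2.2 (key (d3.1 hd) s2 s2 s1 ((add_comm _ _).trans e5))
  have hall : Y i ≠ 0 := hYn i hi
  clear hE hY hYn
  have hT : (v 0 = v 1 + v 3 ∨ v 1 = v 0 + v 3 ∨ v 3 = v 0 + v 1) ∨ (v 0 = v 2 + v 4 ∨ v 2 = v 0 + v 4 ∨ v 4 = v 0 + v 2) ∨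
      (v 1 = v 2 + v 5 ∨ v 2 = v 1 + v 5 ∨ v 5 = v 1 + v 2) ∨ (v 3 = v 4 + v 5 ∨ v 4 = v 3 + v 5 ∨ v 5 = v 3 + v 4) := by
    clear p01 p10 p02 p20 p12 p21 p03 p30 p13 p31 p23 p32 e0 e1 e2 e3 e4 e5
    fin_cases i
    · exact (hall (hY0 0 (by rw [g0]; omega))).elim
    · exact (hall (hY0 1 (by rw [g1]; omega))).elim
    · exact (hall (hY0 2 (by rw [g2]; omega))).elim
    · exact (hall (hY0 3 (by rw [g3]; omega))).elim
    · exact (hall (hY0 4 (by rw [g4]; omega))).elim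
    · exact (hall (hY0 5 (by rw [g5]; omega))).elim
    · exact Or.inl (d0.2 (Or.inl hall))
    · exact Or.inl (d0.2 (Or.inr (Or.inl hall)))
    · exact Or.inl (d0.2 (Or.inr (Or.inr hall)))
    · exact Or.inr (Or.inl (d1.2 (Or.inl hall)))
    · exact Or.inr (Or.inl (d1.2 (Or.inr (Or.inl hall))))
    · exact Or.inr (Or.inl (d1.2 (Or.inr (Or.inr hall))))
    · exact Or.inr (Or.inr (Or.inl (d2.2 (Or.inl hall))))
    · exact Or.inr (Or.inr (Or.inl (d2.2 (Or.inr (Or.inl hall)))))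
    · exact Or.inr (Or.inr (Or.inl (d2.2 (Or.inr (Or.inr hall)))))
    · exact Or.inr (Or.inr (Or.inr (d3.2 (Or.inl hall))))
    · exact Or.inr (Or.inr (Or.inr (d3.2 (Or.inr (Or.inl hall)))))
    · exact Or.inr (Or.inr (Or.inr (d3.2 (Or.inr (Or.inr hall)))))
  clear hall hY0 e0 e1 e2 e3 e4 e5
  rcases hT with hT | hT | hT | hT
  · exact ⟨hT, p01 hT, p02 hT, p03 hT⟩
  · exact ⟨p10 hT, hT, p12 hT, p13 hT⟩
  · exact ⟨p20 hT, p21 hT, hT, p23 hT⟩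
  · exact ⟨p30 hT, p31 hT, p32 hT, hT⟩

end Pool.Agent.Helper73.FN
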